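import Pool.Agent.Helper29.MX.St2
import Pool.Agent.Helper8.CPY.AllE

/-! Row [TRY] of Helper29/MX/St2, the transport: class, INV, weighted degrees, and the four clauses on all events of all
extensions, from the rules for one law. -/

set_option autoImplicit false

namespace Pool.Agent.Helper83.SELY

open Finset Filter Topology Matrix Pool.Agent.Helper69.RK Pool.Agent.Helper31.EC Pool.Agent.Helper31.EC.Sp
open Pool.Agent.Helper40.EL Pool.Agent.Helper89.LX Pool.Agent.Helper84.MT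
open Pool.Agent.Helper49.MD Pool.Agent.Helper36.AM
open Pool.Agent.Helper29.MX
open Pool.Agent.Helper26.OUT (WDs)

noncomputable section

variable {S T : Sp} {N M : ℕ} {E : ℕ → ℕ} {ι : Type}

/-- INV(v) of truncations -/
theorem inv_trn {v : ℕ} {s : MSys S M E ι} (hs : Inv v s) {e : ℝ} (he : 0 < e) (h1 : e ≤ 1) :
    Inv v (s.trn e he h1) := ⟨hs.1, fun i => Pool.Agent.Helper8.CPY.ud_trn (hs.2 i) he h1⟩

/-- four robust properties at once -/
theorem alle_and4 {P1 P2 P3 P4 : ∀ S : Sp, MSys S M E ι → Rsl S → Prop} {s : MSys S M E ι} {R : Rsl S} :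
    (AllE P1 S s R ∧ AllE P2 S s R ∧ AllE P3 S s R ∧ AllE P4 S s R) ↔
      AllE (fun S s R => P1 S s R ∧ P2 S s R ∧ P3 S s R ∧ P4 S s R) S s R :=
  ⟨fun h T p A hA => ⟨h.1 T p A hA, h.2.1 T p A hA, h.2.2.1 T p A hA, h.2.2.2 T p A hA⟩,
    fun h => ⟨fun T p A hA => (h T p A hA).1, fun T p A hA => (h T p A hA).2.1, fun T p A hA => (h T p A hA).2.2.1,
      fun T p A hA => (h T p A hA).2.2.2⟩⟩

/-- THE RULE FOR ONE LAW: truncations of the four clauses -/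
def OneTrn (w : Fin N → ℝ) (ρ : ℝ) (E : ℕ → ℕ) (ι : Type) (e : ℝ) (he : 0 < e) (h1 : e ≤ 1) : Prop :=
  ∀ (S : Sp) (s : MSys S N E ι) (R : Rsl S), Tot w s R → Car w s R → Dfx w ρ s R → Vsx w s R →
    Tot w (s.trn e he h1) R ∧ Car w (s.trn e he h1) R ∧ Dfx w ρ (s.trn e he h1) R ∧ Vsx w (s.trn e he h1) R

/-- the four clauses of the truncation, on all events of all extensions -/
theorem alle4_trn {w : Fin M → ℝ} {ρ : ℝ} {e : ℝ} {he : 0 < e} {h1 : e ≤ 1} (h : OneTrn w ρ E ι e he h1)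
    {s : MSys S M E ι} {R : Rsl S} (ht : AllE (fun _ t R => Tot w t R) S s R) (hc : AllE (fun _ t R => Car w t R) S s R)
    (hd : AllE (fun _ t R => Dfx w ρ t R) S s R) (hv : AllE (fun _ t R => Vsx w t R) S s R) :
    AllE (fun _ t R => Tot w t R) (S.chg S.tr e he) (s.trn e he h1) R ∧
    AllE (fun _ t R => Car w t R) (S.chg S.tr e he) (s.trn e he h1) R ∧
    AllE (fun _ t R => Dfx w ρ t R) (S.chg S.tr e he) (s.trn e he h1) R ∧
    AllE (fun _ t R => Vsx w t R) (S.chg S.tr e he) (s.trn e he h1) R :=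
  alle_and4.2 (Pool.Agent.Helper71.VIS.AllE_trn he h1
    (P := fun _ t R => Tot w t R ∧ Car w t R ∧ Dfx w ρ t R ∧ Vsx w t R)
    (P' := fun _ t R => Tot w t R ∧ Car w t R ∧ Dfx w ρ t R ∧ Vsx w t R)
    (fun S s R k => h S s R k.1 k.2.1 k.2.2.1 k.2.2.2) (alle_and4.1 ⟨ht, hc, hd, hv⟩))

/-- [TRY] FROM THE RULE FOR ONE LAW -/
theorem ym_trn {A : MCl (M + 1)} {C : ℕ → MCl (M + 1)} {B : MCl (M + 1)} {D : (Fin (M + 1) → ℝ) → ℕ → MCl (M + 1)}
    (hD : Okd (M + 1) A C B D) {v m g r : ℕ} {w : Fin (M + 1) → ℝ} {ρ : ℝ} (hw : ∀ i, 0 ≤ w i)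
    {s : MSys S (M + 1) (lin g) (Fin r)} (hs : YM (D w m) v g r w ρ S s) {e : ℝ} (he : 0 < e) (h1 : e ≤ 1)
    (h : OneTrn w ρ (lin g) (Fin r) e he h1) : YM (D w m) v g r w ρ (S.chg S.tr e he) (s.trn e he h1) := by
  obtain ⟨k1, k2, k3, k4⟩ := alle4_trn h hs.tot hs.car hs.dfx hs.vsx
  exact ⟨hD.trn w m S g r s hs.cl e he h1, inv_trn hs.inv he h1, hs.wd.trn hw e he h1, k1, k2, k3, k4⟩

/-- THE ROW, from the rules for one law -/
theorem tryr_of {M : ℕ} (h : ∀ (g r : ℕ) (w : Fin (M + 1) → ℝ) (ρ : ℝ), Wts M g w ρ → ∀ (e : ℝ) (he : 0 < e)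
    (h1 : e ≤ 1), OneTrn w ρ (lin g) (Fin r) e he h1) : TRYR M := by
  intro A C B D v _ hD m g r w ρ hw S s hs e he h1
  exact ym_trn hD (fun i => zero_le_one.trans (hw.ge i)) hs he h1 (h g r w ρ hw e he h1)

end

end Pool.Agent.Helper83.SELY
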